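import Pool.Agent.Y198.MC.Stm

set_option autoImplicit false

/-! Project MC, job MC-NORM: normal forms under the automorphisms of the plane bundle. -/

namespace Pool.Agent.Y467.MC.Norm

open Pool.Agent.Y198.MC Polynomial

section
variable {k : Type} [Field k]

/-- all monomials `X ^ n` of `p` satisfy `n + s ≤ d` -/
def Sd (d s : ℕ) (p : k[X]) : Prop := ∀ n, p.coeff n ≠ 0 → n + s ≤ d

theorem sd_iff (d s : ℕ) (p : k[X]) : Sd d s p ↔ (p ≠ 0 → p.natDegree + s ≤ d) := by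
  constructor
  · intro h hp
    exact h _ (by rwa [coeff_natDegree, Ne, leadingCoeff_eq_zero])
  · intro h n hn
    have hp : p ≠ 0 := by
      rintro rfl
      simp at hn
    have h1 := h hp
    have h2 := le_natDegree_of_ne_zero hn
    omega

theorem Sd.add {d s : ℕ} {p q : k[X]} (hp : Sd d s p) (hq : Sd d s q) : Sd d s (p + q) := by
  intro n hn
  by_cases h : p.coeff n = 0
  · refine hq n fun h' => hn ?_
    rw [coeff_add, h, h', add_zero]
  · exact hp n h

theorem Sd.mul {d s t e : ℕ} {p q : k[X]} (hp : Sd d s p) (hq : q.natDegree ≤ e)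
    (hs : s = t + e) : Sd d t (q * p) := by
  intro n hn
  rw [coeff_mul] at hn
  obtain ⟨x, hx, hx'⟩ := Finset.exists_ne_zero_of_sum_ne_zero hn
  rw [Finset.HasAntidiagonal.mem_antidiagonal] at hx
  have h1 : q.coeff x.1 ≠ 0 := left_ne_zero_of_mul hx'
  have h2 : p.coeff x.2 ≠ 0 := right_ne_zero_of_mul hx'
  have h3 := le_natDegree_of_ne_zero h1
  have h4 := hp _ h2
  omega

theorem Sd.C_mul {d s : ℕ} {p : k[X]} (hp : Sd d s p) (x : k) : Sd d s (C x * p) :=
  hp.mul (e := 0) (natDegree_C x).le rfl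

theorem bd_iff {N a b d : ℕ} {u v : Fin N → k[X]} {c : Fin 4 → k[X]} :
    Bd a b d u v c ↔ (∀ i, (u i).natDegree ≤ a) ∧ (∀ i, (v i).natDegree ≤ b) ∧
      Sd d (3 * a) (c 0) ∧ Sd d (2 * a + b) (c 1) ∧ Sd d (a + 2 * b) (c 2) ∧
        Sd d (3 * b) (c 3) := by
  constructor
  · rintro ⟨h1, h2, h3⟩
    refine ⟨h1, h2, ?_, ?_, ?_, ?_⟩
    · rw [sd_iff]; intro h; have := h3 0 h; simpa using this
    · rw [sd_iff]; intro h; have := h3 1 h; simpa using this
    · rw [sd_iff]; intro h; have := h3 2 h; simpa using this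
    · rw [sd_iff]; intro h; have := h3 3 h; simpa using this
  · rintro ⟨h1, h2, h3, h4, h5, h6⟩
    rw [sd_iff] at h3 h4 h5 h6
    refine ⟨h1, h2, ?_⟩
    intro i
    fin_cases i
    · intro h; simpa using h3 h
    · intro h; simpa using h4 h
    · intro h; simpa using h5 h
    · intro h; simpa using h6 h

theorem step1 {N a b d : ℕ} {u v : Fin N → k[X]} {c : Fin 4 → k[X]} (hB : Bd a b d u v c)
    (x : k) (hx : x ≠ 0) :
    Bd a b d (fun i => C x⁻¹ * u i) (fun i => C x * v i)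
      ![C (x ^ 3) * c 0, C x * c 1, C x⁻¹ * c 2, C (x⁻¹ ^ 3) * c 3] ∧
    wdg (fun i => C x⁻¹ * u i) (fun i => C x * v i) = wdg u v ∧
    cub (fun i => C x⁻¹ * u i) (fun i => C x * v i)
      ![C (x ^ 3) * c 0, C x * c 1, C x⁻¹ * c 2, C (x⁻¹ ^ 3) * c 3] = cub u v c := by
  have hC : (C x : k[X]) * C x⁻¹ = 1 := by
    rw [← C_mul, mul_inv_cancel₀ hx, C_1]
  rw [bd_iff] at hB ⊢
  obtain ⟨h1, h2, h3, h4, h5, h6⟩ := hB
  refine ⟨⟨fun i => (natDegree_C_mul_le _ _).trans (h1 i),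
    fun i => (natDegree_C_mul_le _ _).trans (h2 i), h3.C_mul _, h4.C_mul _, h5.C_mul _,
    h6.C_mul _⟩, ?_, ?_⟩
  · funext s
    simp only [wdg]
    linear_combination (u s.1 * v s.2 - v s.1 * u s.2) * hC
  · funext t
    simp only [cub, Matrix.cons_val_zero, Matrix.cons_val_one, Matrix.cons_val, C_pow]
    have e1 : (C x : k[X]) ^ 3 * C x⁻¹ ^ 3 = 1 := by rw [← mul_pow, hC, one_pow]
    have e2 : (C x : k[X]) * C x⁻¹ * (C x * C x⁻¹) = 1 := by rw [hC, one_mul]
    linear_combination (c 0 * (u t.1 * u t.2.1 * u t.2.2) +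
      c 3 * (v t.1 * v t.2.1 * v t.2.2)) * e1 +
      (c 1 * (u t.1 * u t.2.1 * v t.2.2 + u t.1 * v t.2.1 * u t.2.2 + v t.1 * u t.2.1 * u t.2.2) +
      c 2 * (u t.1 * v t.2.1 * v t.2.2 + v t.1 * u t.2.1 * v t.2.2 + v t.1 * v t.2.1 * u t.2.2))
        * e2

theorem step2 {N a b d : ℕ} {u v : Fin N → k[X]} {c : Fin 4 → k[X]} (hB : Bd a b d u v c)
    (hab : a ≤ b) (h : k[X]) (hh : h.natDegree ≤ b - a) :
    Bd a b d u (fun i => v i - h * u i)
      ![c 0 + 3 * (h * c 1) + 3 * (h * (h * c 2)) + h * (h * (h * c 3)),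
        c 1 + 2 * (h * c 2) + h * (h * c 3), c 2 + h * c 3, c 3] ∧
    wdg u (fun i => v i - h * u i) = wdg u v ∧
    cub u (fun i => v i - h * u i)
      ![c 0 + 3 * (h * c 1) + 3 * (h * (h * c 2)) + h * (h * (h * c 3)),
        c 1 + 2 * (h * c 2) + h * (h * c 3), c 2 + h * c 3, c 3] = cub u v c := by
  rw [bd_iff] at hB ⊢
  obtain ⟨h1, h2, h3, h4, h5, h6⟩ := hB
  have hnat : ∀ (n : ℕ) (s : ℕ) (p : k[X]), Sd d s p → Sd d s ((n : k[X]) * p) := by
    intro n s p hp
    exact hp.mul (e := 0) (natDegree_natCast n).le rfl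
  have h3' : ∀ (s : ℕ) (p : k[X]), Sd d s p → Sd d s (3 * p) := fun s p hp => by
    simpa using hnat 3 s p hp
  have h2' : ∀ (s : ℕ) (p : k[X]), Sd d s p → Sd d s (2 * p) := fun s p hp => by
    simpa using hnat 2 s p hp
  have a1 : Sd d (3 * a) (h * c 1) := h4.mul hh (by omega)
  have a2 : Sd d (2 * a + b) (h * c 2) := h5.mul hh (by omega)
  have a3 : Sd d (a + 2 * b) (h * c 3) := h6.mul hh (by omega)
  have b2 : Sd d (3 * a) (h * (h * c 2)) := a2.mul hh (by omega)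
  have b3 : Sd d (2 * a + b) (h * (h * c 3)) := a3.mul hh (by omega)
  have c3 : Sd d (3 * a) (h * (h * (h * c 3))) := b3.mul hh (by omega)
  refine ⟨⟨h1, fun i => ?_, ((h3.add (h3' _ _ a1)).add (h3' _ _ b2)).add c3,
    (h4.add (h2' _ _ a2)).add b3, h5.add a3, h6⟩, ?_, ?_⟩
  · refine (natDegree_sub_le _ _).trans (max_le (h2 i) ?_)
    refine natDegree_mul_le.trans ?_
    have := h1 i
    omega
  · funext s
    simp only [wdg]
    ring
  · funext t
    simp only [cub, Matrix.cons_val_zero, Matrix.cons_val_one, Matrix.cons_val]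
    ring

theorem step3 {N a d : ℕ} {u v : Fin N → k[X]} {c : Fin 4 → k[X]} (hB : Bd a a d u v c)
    (x : k) :
    Bd a a d (fun i => u i - C x * v i) v
      ![c 0, c 1 + C x * c 0, c 2 + 2 * (C x * c 1) + C x * (C x * c 0),
        c 3 + 3 * (C x * c 2) + 3 * (C x * (C x * c 1)) + C x * (C x * (C x * c 0))] ∧
    wdg (fun i => u i - C x * v i) v = wdg u v ∧
    cub (fun i => u i - C x * v i) v
      ![c 0, c 1 + C x * c 0, c 2 + 2 * (C x * c 1) + C x * (C x * c 0),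
        c 3 + 3 * (C x * c 2) + 3 * (C x * (C x * c 1)) + C x * (C x * (C x * c 0))]
      = cub u v c := by
  rw [bd_iff] at hB ⊢
  obtain ⟨h1, h2, h3, h4, h5, h6⟩ := hB
  have hnat : ∀ (n : ℕ) (s : ℕ) (p : k[X]), Sd d s p → Sd d s ((n : k[X]) * p) := by
    intro n s p hp
    exact hp.mul (e := 0) (natDegree_natCast n).le rfl
  have h3' : ∀ (s : ℕ) (p : k[X]), Sd d s p → Sd d s (3 * p) := fun s p hp => by
    simpa using hnat 3 s p hp
  have h2' : ∀ (s : ℕ) (p : k[X]), Sd d s p → Sd d s (2 * p) := fun s p hp => by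
    simpa using hnat 2 s p hp
  have e1 : 2 * a + a = 3 * a := by ring
  have e2 : a + 2 * a = 3 * a := by ring
  rw [e1] at h4 ⊢
  rw [e2] at h5 ⊢
  refine ⟨⟨fun i => ?_, h2, h3, h4.add (h3.C_mul _),
    (h5.add (h2' _ _ (h4.C_mul _))).add ((h3.C_mul _).C_mul _),
    ((h6.add (h3' _ _ (h5.C_mul _))).add (h3' _ _ ((h4.C_mul _).C_mul _))).add
      (((h3.C_mul _).C_mul _).C_mul _)⟩, ?_, ?_⟩
  · exact (natDegree_sub_le _ _).trans (max_le (h1 i) ((natDegree_C_mul_le _ _).trans (h2 i)))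
  · funext s
    simp only [wdg]
    ring
  · funext t
    simp only [cub, Matrix.cons_val_zero, Matrix.cons_val_one, Matrix.cons_val]
    ring

end

theorem done : StmNorm := by
  intro k _ N a b d u v c hab hB ha hm
  obtain ⟨hB1, hw1, hc1⟩ := step1 hB ((u 0).coeff a) ha
  set x := (u 0).coeff a with hx
  set u1 : Fin (N + 2) → k[X] := fun i => C x⁻¹ * u i with hu1
  set v1 : Fin (N + 2) → k[X] := fun i => C x * v i with hv1
  set c1 : Fin 4 → k[X] := ![C (x ^ 3) * c 0, C x * c 1, C x⁻¹ * c 2, C (x⁻¹ ^ 3) * c 3] with hc1'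
  have hu10 : (u1 0).coeff a = 1 := by
    simp only [hu1, coeff_C_mul]
    rw [← hx, inv_mul_cancel₀ ha]
  have hmon : (u1 0).Monic := monic_of_natDegree_le_of_coeff_eq_one a (hB1.hu 0) hu10
  have hdeg : (u1 0).natDegree = a := by
    refine le_antisymm (hB1.hu 0) (le_natDegree_of_ne_zero ?_)
    rw [hu10]
    exact one_ne_zero
  have hm1 : (u1 0).coeff a * (v1 1).coeff b - (v1 0).coeff b * (u1 1).coeff a ≠ 0 := by
    simp only [hu1, hv1, coeff_C_mul]
    have : x⁻¹ * (u 0).coeff a * (x * (v 1).coeff b) - x * (v 0).coeff b * (x⁻¹ * (u 1).coeff a)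
        = (u 0).coeff a * (v 1).coeff b - (v 0).coeff b * (u 1).coeff a := by
      field_simp
    rw [this]
    exact hm
  have hh : (v1 0 /ₘ u1 0).natDegree ≤ b - a := by
    rw [natDegree_divByMonic _ hmon, hdeg]
    have := hB1.hv 0
    omega
  obtain ⟨hB2, hw2, hc2⟩ := step2 hB1 hab _ hh
  set h := v1 0 /ₘ u1 0 with hhdef
  set v2 : Fin (N + 2) → k[X] := fun i => v1 i - h * u1 i with hv2
  set c2 : Fin 4 → k[X] := ![c1 0 + 3 * (h * c1 1) + 3 * (h * (h * c1 2)) +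
      h * (h * (h * c1 3)), c1 1 + 2 * (h * c1 2) + h * (h * c1 3), c1 2 + h * c1 3, c1 3] with hc2'
  have hv20 : ∀ i, a ≤ i → (v2 0).coeff i = 0 := by
    intro i hi
    have h1 : v2 0 = v1 0 %ₘ u1 0 := by
      simp only [hv2, hhdef]
      rw [modByMonic_eq_sub_mul_div]
      ring
    rw [h1]
    refine coeff_eq_zero_of_degree_lt ?_
    refine lt_of_lt_of_le (degree_modByMonic_lt _ hmon) ?_
    rw [degree_eq_natDegree hmon.ne_zero, hdeg]
    exact_mod_cast hi
  rcases hab.lt_or_eq with hlt | rfl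
  · exact ⟨u1, v2, c2, hB2, hw2.trans hw1, hc2.trans hc1, hu10, hv20,
      fun h => absurd h hlt.ne⟩
  · have hcf : ∀ j, (v2 j).coeff a = (v1 j).coeff a - h.coeff 0 * (u1 j).coeff a := by
      intro j
      simp only [hv2, coeff_sub]
      have h1 : h.natDegree ≤ 0 := by simpa using hh
      have h2 := coeff_mul_add_eq_of_natDegree_le (f := h) (g := u1 j) h1 (hB1.hu j)
      rw [zero_add] at h2
      rw [h2]
    have hne : (v2 1).coeff a ≠ 0 := by
      have h0 := hcf 0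
      rw [hv20 a le_rfl, hu10] at h0
      rw [hcf 1]
      intro h1
      apply hm1
      rw [hu10]
      linear_combination h1 + (u1 1).coeff a * h0
    obtain ⟨hB3, hw3, hc3⟩ := step3 hB2 ((u1 1).coeff a / (v2 1).coeff a)
    refine ⟨_, _, _, hB3, hw3.trans (hw2.trans hw1), hc3.trans (hc2.trans hc1), ?_, hv20, ?_⟩
    · simp only [coeff_sub, coeff_C_mul]
      rw [hv20 a le_rfl, hu10]
      ring
    · intro _
      simp only [coeff_sub, coeff_C_mul]
      field_simp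
      ring

end Pool.Agent.Y467.MC.Norm
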