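import Pool.Agent.Y198.MC.Stm
import Pool.Agent.Y179.DP.Fld

set_option autoImplicit false

/-! Project MC, job MC-TR1: a count of transcendence degrees. -/

namespace Pool.Agent.Y467.MC.Tr1

open Pool.Agent.Y198.MC MvPolynomial Cardinal
open scoped IntermediateField.algebraAdjoinAdjoin

theorem done : StmTr1 := by
  intro k σ P₁ P₂ _ _ _ _ _ Ψ₁ Ψ₂ hcard hD hker F hF
  classical
  by_contra hy
  set F2 := FractionRing (MvPolynomial P₂ k) with hF2
  set ψ : σ → F2 := fun s => algebraMap (MvPolynomial P₂ k) F2 (Ψ₂ s) with hψ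
  set S : Set F2 := Set.range ψ with hS
  have h1 : Algebra.IsAlgebraic (IntermediateField.adjoin k S) F2 := by
    refine ⟨fun z => Pool.Agent.Y179.DP.alg_aux k F2 S z fun D hDS => ?_⟩
    have : D = 0 := hD D fun s => hDS _ ⟨s, rfl⟩
    rw [this]
    rfl
  have h2 : Algebra.IsAlgebraic (Algebra.adjoin k S) F2 :=
    (IsFractionRing.comap_isAlgebraic_iff (A := Algebra.adjoin k S)
      (K := IntermediateField.adjoin k S) (C := F2)).mpr h1
  obtain ⟨t, htS, ht⟩ := exists_isTranscendenceBasis_subset (R := k) (A := F2) S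
  have htfin : Finite t := (Set.finite_range ψ).subset htS
  choose g hg using fun i : t => htS i.2
  have hct : #P₁ ≤ #t := by
    have e1 : #t = Algebra.trdeg k F2 := ht.cardinalMk_eq_trdeg
    have e2 : Algebra.trdeg k (MvPolynomial P₂ k) ≤ Algebra.trdeg k F2 := by
      exact trdeg_le_of_injective (IsScalarTower.toAlgHom k (MvPolynomial P₂ k) F2)
        (IsFractionRing.injective (MvPolynomial P₂ k) F2)
    rw [MvPolynomial.trdeg_of_isDomain, lift_id] at e2
    rw [e1]
    refine le_trans ?_ e2
    rw [mk_fintype, mk_fintype]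
    exact_mod_cast hcard
  have hind2 : AlgebraicIndependent k (fun i : t => Ψ₂ (g i)) := by
    refine AlgebraicIndependent.of_comp (IsScalarTower.toAlgHom k (MvPolynomial P₂ k) F2) ?_
    have : (⇑(IsScalarTower.toAlgHom k (MvPolynomial P₂ k) F2) ∘ fun i : t => Ψ₂ (g i)) =
        (Subtype.val : t → F2) := by
      funext i
      exact hg i
    rw [this]
    exact ht.1
  have hind1 : AlgebraicIndependent k (fun i : t => Ψ₁ (g i)) := by
    rw [algebraicIndependent_iff] at hind2 ⊢
    intro p hp
    refine hind2 p ?_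
    have e1 := hker (rename g p) (by rw [aeval_rename]; exact hp)
    rw [aeval_rename] at e1
    exact e1
  have hb : IsTranscendenceBasis k (fun i : t => Ψ₁ (g i)) := by
    refine hind1.isTranscendenceBasis_of_trdeg_le_of_finite ?_
    rw [MvPolynomial.trdeg_of_isDomain, lift_id]
    exact hct
  have halg := hb.isAlgebraic
  obtain ⟨q, hq0, hq⟩ := (halg.isAlgebraic (aeval Ψ₁ F)).exists_nonzero_coeff_and_aeval_eq_zero
    (mem_nonZeroDivisors_of_ne_zero hy)
  have hco : ∀ j, ∃ G : MvPolynomial t k, aeval (fun i : t => Ψ₁ (g i)) G =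
      ((q.coeff j : Algebra.adjoin k (Set.range fun i : t => Ψ₁ (g i))) :
        MvPolynomial P₁ k) := by
    intro j
    have e1 : ((q.coeff j : Algebra.adjoin k (Set.range fun i : t => Ψ₁ (g i))) :
        MvPolynomial P₁ k) ∈ (aeval (R := k) (fun i : t => Ψ₁ (g i))).range := by
      rw [← Algebra.adjoin_range_eq_range_aeval]
      exact (q.coeff j).2
    exact e1
  choose G hG using hco
  have key := hker (∑ j ∈ Finset.range (q.natDegree + 1), rename g (G j) * F ^ j) (by
    rw [map_sum]
    rw [Polynomial.aeval_eq_sum_range] at hq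
    rw [← hq]
    refine Finset.sum_congr rfl fun j _ => ?_
    rw [map_mul, map_pow, aeval_rename]
    have e1 : aeval (Ψ₁ ∘ g) (G j) = _ := hG j
    rw [e1]
    rfl)
  rw [map_sum, Finset.sum_eq_single 0] at key
  · rw [map_mul, pow_zero, map_one, mul_one, aeval_rename] at key
    rw [algebraicIndependent_iff] at hind2
    have e1 := hind2 (G 0) key
    apply hq0
    have e2 := hG 0
    rw [e1, map_zero] at e2
    exact Subtype.ext e2.symm
  · intro j _ hj
    rw [map_mul, map_pow, hF, zero_pow hj, mul_zero]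
  · intro h
    exact absurd (Finset.mem_range.mpr (Nat.succ_pos _)) h

end Pool.Agent.Y467.MC.Tr1
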